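import Pool.Agent.TH914.HU.Pol

/-!
# C8: the competitor (helper914 for helper703, job 4330)
-/

set_option autoImplicit false

open MeasureTheory Set Metric Filter Topology
open scoped ENNReal Real

noncomputable section

namespace Pool.Agent.TH914.HU

open Pool.Agent.TH304.MI Pool.Agent.TH703.HU

/-- angular integral -/
def cc (w : ℂ → ℝ) (q : ℂ) (ρ : ℝ) : ℝ := ∫ θ in (-π)..π, w (pt q ρ θ)

theorem cc_cont {w : ℂ → ℝ} (hw : Continuous w) (q : ℂ) : Continuous (cc w q) := by
  unfold cc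
  exact intervalIntegral.continuous_parametric_intervalIntegral_of_continuous'
    (f := fun ρ θ => w (pt q ρ θ)) (hw.comp (pt_cont q)) _ _

theorem mu_ball {w : ℂ → ℝ} (hw : Continuous w) (q : ℂ) {r : ℝ} (hr : 0 ≤ r) :
    mu w (ball q r) = ∫ ρ in (0 : ℝ)..r, ρ * cc w q ρ := by
  unfold mu
  rw [int_ball hw q hr]
  refine intervalIntegral.integral_congr fun ρ _ => ?_
  show ∫ θ in (-π)..π, ρ * w (pt q ρ θ) = ρ * cc w q ρ
  rw [intervalIntegral.integral_const_mul]
  rfl

theorem ind_le {a b c d : ℝ} (hab : a ≤ b) (hcd : c ≤ d) :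
    ∫ θ in a..b, (Ioo c d).indicator (fun _ => (1 : ℝ)) θ ≤ d - c := by
  rw [intervalIntegral.integral_of_le hab]
  have hi : Integrable ((Ioo c d).indicator (fun _ => (1 : ℝ))) := by
    rw [integrable_indicator_iff measurableSet_Ioo]
    exact integrableOn_const (by simp) (by simp)
  have h1 := setIntegral_le_integral (s := Ioc a b) hi
    (Eventually.of_forall fun x => indicator_nonneg (fun _ _ => zero_le_one) x)
  refine h1.trans ?_
  rw [integral_indicator measurableSet_Ioo, setIntegral_const, smul_eq_mul, mul_one,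
    Real.volume_real_Ioo_of_le hcd]

theorem ind_eq {a b c d : ℝ} (hab : a ≤ b) (hcd : c ≤ d) (hac : a ≤ c) (hdb : d ≤ b) :
    ∫ θ in a..b, (Ioo c d).indicator (fun _ => (1 : ℝ)) θ = d - c := by
  rw [intervalIntegral.integral_of_le hab, integral_indicator measurableSet_Ioo,
    Measure.restrict_restrict measurableSet_Ioo]
  have : Ioo c d ∩ Ioc a b = Ioo c d := inter_eq_left.2 fun x hx =>
    ⟨hac.trans_lt hx.1, hx.2.le.trans hdb⟩
  rw [this, setIntegral_const, smul_eq_mul, mul_one, Real.volume_real_Ioo_of_le hcd]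

theorem sin_far {x t : ℝ} (hx : |x| ≤ π / 2) (h : π * t / 2 ≤ |x|) : t ≤ |Real.sin x| := by
  have h1 := Real.mul_abs_le_abs_sin hx
  have hpi := Real.pi_pos
  have h2 : 2 / π * (π * t / 2) = t := by field_simp
  have h3 : 2 / π * (π * t / 2) ≤ 2 / π * |x| := by gcongr
  linarith

theorem ind_int (c d a b : ℝ) :
    IntervalIntegrable ((Ioo c d).indicator (fun _ => (1 : ℝ))) volume a b := by
  apply Integrable.intervalIntegrable
  rw [integrable_indicator_iff measurableSet_Ioo]
  exact integrableOn_const (by simp) (by simp)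

theorem sum_int (F : ℕ → ℝ → ℝ) {a b : ℝ} (hF : ∀ k, IntervalIntegrable (F k) volume a b) (n : ℕ) :
    IntervalIntegrable (fun θ => ∑ k ∈ Finset.range n, F k θ) volume a b := by
  have := IntervalIntegrable.sum (Finset.range n) fun k _ => hF k
  have e : (∑ k ∈ Finset.range n, F k) = fun θ => ∑ k ∈ Finset.range n, F k θ := by
    funext θ
    rw [Finset.sum_apply]
  rwa [e] at this

/-- the integral over a circle around the corner of the square -/
theorem circ {w : ℂ → ℝ} (hw : Continuous w) (h0 : ∀ x, 0 ≤ w x) (h1 : ∀ x, w x ≤ 1) {δ : ℝ}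
    (hδ : 0 < δ) (hin : ∀ x : ℂ, |x.re| ≤ 1 / 2 - δ → |x.im| ≤ 1 / 2 - δ → 1 - δ ≤ w x)
    (hout : ∀ x : ℂ, (1 / 2 + δ ≤ |x.re| ∨ 1 / 2 + δ ≤ |x.im|) → w x ≤ δ) {ρ : ℝ} (hρ : 0 ≤ ρ)
    (hρ1 : ρ ≤ 3 / 10) :
    |ρ * cc w ⟨1 / 2, 1 / 2⟩ ρ - ρ * (π / 2)| ≤ (2 * π * ρ + 5 * π) * δ := by
  have hpi := Real.pi_pos
  rcases hρ.eq_or_lt with h | hρ0
  · rw [← h]
    simp only [zero_mul, sub_self, abs_zero]
    positivity
  obtain ⟨t, ht⟩ : ∃ t, t = δ / ρ := ⟨_, rfl⟩
  have ht0 : 0 < t := by rw [ht]; positivity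
  have htρ : ρ * t = δ := by rw [ht]; field_simp
  obtain ⟨g, hg⟩ : ∃ g : ℝ → ℝ, g = (Ioo (-π) (-(π / 2))).indicator (fun _ => (1 : ℝ)) := ⟨_, rfl⟩
  have hgI : ∫ θ in (-π)..π, g θ = π / 2 := by
    rw [hg, ind_eq (by linarith) (by linarith) le_rfl (by linarith)]
    ring
  have hwc : Continuous fun θ => w (pt ⟨1 / 2, 1 / 2⟩ ρ θ) :=
    hw.comp ((pt_cont _).comp (by fun_prop : Continuous fun θ : ℝ => (ρ, θ)))
  have hsub : cc w ⟨1 / 2, 1 / 2⟩ ρ - π / 2 =
      ∫ θ in (-π)..π, (w (pt ⟨1 / 2, 1 / 2⟩ ρ θ) - g θ) := by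
    rw [intervalIntegral.integral_sub (hwc.intervalIntegrable _ _) (by rw [hg]; exact ind_int _ _ _ _),
      hgI]
    rfl
  -- pointwise bound
  have hpt : ∀ θ ∈ Ioc (-π) π, |w (pt ⟨1 / 2, 1 / 2⟩ ρ θ) - g θ| ≤
      δ + ∑ k ∈ Finset.range 5, (Ioo ((k : ℝ) * (π / 2) - π - π * t / 2)
        ((k : ℝ) * (π / 2) - π + π * t / 2)).indicator (fun _ => (1 : ℝ)) θ := by
    intro θ hθ
    by_cases hA : ∃ k ∈ Finset.range 5, |θ - ((k : ℝ) * (π / 2) - π)| < π * t / 2
    · obtain ⟨k, hk, hk2⟩ := hA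
      have e1 : (1 : ℝ) ≤ ∑ k ∈ Finset.range 5, (Ioo ((k : ℝ) * (π / 2) - π - π * t / 2)
          ((k : ℝ) * (π / 2) - π + π * t / 2)).indicator (fun _ => (1 : ℝ)) θ := by
        have e2 : (Ioo ((k : ℝ) * (π / 2) - π - π * t / 2)
          ((k : ℝ) * (π / 2) - π + π * t / 2)).indicator (fun _ => (1 : ℝ)) θ = 1 := by
          rw [indicator_of_mem]
          rw [abs_lt] at hk2
          constructor <;> linarith [hk2.1, hk2.2]
        refine e2.symm.le.trans ?_
        exact Finset.single_le_sum (f := fun k : ℕ => (Ioo ((k : ℝ) * (π / 2) - π - π * t / 2)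
          ((k : ℝ) * (π / 2) - π + π * t / 2)).indicator (fun _ => (1 : ℝ)) θ)
          (fun i _ => indicator_nonneg (fun _ _ => zero_le_one) θ) hk
      have e3 : |w (pt ⟨1 / 2, 1 / 2⟩ ρ θ) - g θ| ≤ 1 := by
        have a1 := h0 (pt ⟨1 / 2, 1 / 2⟩ ρ θ)
        have a2 := h1 (pt ⟨1 / 2, 1 / 2⟩ ρ θ)
        have a3 : 0 ≤ g θ := by rw [hg]; exact indicator_nonneg (fun _ _ => zero_le_one) θ
        have a4 : g θ ≤ 1 := by
          rw [hg]
          exact indicator_le_self' (s := Ioo (-π) (-(π / 2))) (f := fun _ : ℝ => (1 : ℝ))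
            (fun _ _ => zero_le_one) θ
        rw [abs_le]
        constructor <;> linarith
      linarith
    · push Not at hA
      have e1 : (0 : ℝ) ≤ ∑ k ∈ Finset.range 5, (Ioo ((k : ℝ) * (π / 2) - π - π * t / 2)
          ((k : ℝ) * (π / 2) - π + π * t / 2)).indicator (fun _ => (1 : ℝ)) θ :=
        Finset.sum_nonneg fun i _ => indicator_nonneg (fun _ _ => zero_le_one) θ
      have k0 := hA 0 (by simp)
      have k1 := hA 1 (by simp)
      have k2 := hA 2 (by simp)
      have k3 := hA 3 (by simp)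
      have k4 := hA 4 (by simp)
      push_cast at k0 k1 k2 k3 k4
      have hre : (pt ⟨1 / 2, 1 / 2⟩ ρ θ).re = 1 / 2 + ρ * Real.cos θ := by
        simp [pt, ee]
      have him : (pt ⟨1 / 2, 1 / 2⟩ ρ θ).im = 1 / 2 + ρ * Real.sin θ := by
        simp [pt, ee]
      have hc1 := Real.neg_one_le_cos θ
      have hs1 := Real.neg_one_le_sin θ
      have hrep : 0 ≤ 1 / 2 + ρ * Real.cos θ := by nlinarith
      have himp : 0 ≤ 1 / 2 + ρ * Real.sin θ := by nlinarith
      have hcos : t ≤ |Real.cos θ| := by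
        rcases le_total 0 θ with h | h
        · rw [← Real.sin_pi_div_two_sub]
          refine sin_far ?_ ?_
          · rw [abs_le]; constructor <;> linarith [hθ.2]
          · rw [abs_sub_comm, show θ - π / 2 = θ - (3 * (π / 2) - π) by ring]
            exact k3
        · have : Real.cos θ = Real.sin (θ + π / 2) := (Real.sin_add_pi_div_two θ).symm
          rw [this]
          refine sin_far ?_ ?_
          · rw [abs_le]; constructor <;> linarith [hθ.1]
          · rw [show θ + π / 2 = θ - (1 * (π / 2) - π) by ring]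
            exact k1
      have hsin : t ≤ |Real.sin θ| := by
        rcases le_total θ (-(π / 2)) with h | h
        · have : Real.sin θ = -Real.sin (θ + π) := by rw [Real.sin_add_pi]; ring
          rw [this, abs_neg]
          refine sin_far ?_ ?_
          · rw [abs_le]; constructor <;> linarith [hθ.1]
          · rw [show θ + π = θ - (0 * (π / 2) - π) by ring]
            exact k0
        · rcases le_total θ (π / 2) with h2 | h2
          · refine sin_far ?_ ?_
            · rw [abs_le]; constructor <;> linarith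
            · have e : θ = θ - (2 * (π / 2) - π) := by ring
              rw [e]
              exact k2
          · rw [← Real.sin_pi_sub]
            refine sin_far ?_ ?_
            · rw [abs_le]; constructor <;> linarith [hθ.2]
            · rw [abs_sub_comm, show θ - π = θ - (4 * (π / 2) - π) by ring]
              exact k4
      by_cases hq : θ < -(π / 2)
      · have g1 : g θ = 1 := by
          rw [hg, indicator_of_mem]
          exact ⟨hθ.1, hq⟩
        have c1 : Real.cos θ < 0 := by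
          rw [← Real.cos_neg]
          exact Real.cos_neg_of_pi_div_two_lt_of_lt (by linarith) (by linarith [hθ.1])
        have s1 : Real.sin θ < 0 := Real.sin_neg_of_neg_of_neg_pi_lt (by linarith) hθ.1
        rw [abs_of_neg c1] at hcos
        rw [abs_of_neg s1] at hsin
        have b1 : 1 - δ ≤ w (pt ⟨1 / 2, 1 / 2⟩ ρ θ) := by
          apply hin
          · rw [hre, abs_of_nonneg hrep]
            nlinarith
          · rw [him, abs_of_nonneg himp]
            nlinarith
        have b2 := h1 (pt ⟨1 / 2, 1 / 2⟩ ρ θ)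
        rw [g1, abs_le]
        constructor <;> linarith
      · have g1 : g θ = 0 := by
          rw [hg, indicator_of_notMem]
          exact fun h => hq h.2
        have b1 : w (pt ⟨1 / 2, 1 / 2⟩ ρ θ) ≤ δ := by
          apply hout
          rcases le_total θ (π / 2) with h2 | h2
          · left
            have c1 : 0 ≤ Real.cos θ := Real.cos_nonneg_of_mem_Icc ⟨by linarith, h2⟩
            rw [abs_of_nonneg c1] at hcos
            rw [hre, abs_of_nonneg hrep]
            nlinarith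
          · right
            have c1 : 0 ≤ Real.sin θ := Real.sin_nonneg_of_nonneg_of_le_pi (by linarith) hθ.2
            rw [abs_of_nonneg c1] at hsin
            rw [him, abs_of_nonneg himp]
            nlinarith
        have b2 := h0 (pt ⟨1 / 2, 1 / 2⟩ ρ θ)
        rw [g1, abs_le]
        constructor <;> linarith
  have hint : IntervalIntegrable (fun θ => δ + ∑ k ∈ Finset.range 5,
      (Ioo ((k : ℝ) * (π / 2) - π - π * t / 2)
        ((k : ℝ) * (π / 2) - π + π * t / 2)).indicator (fun _ => (1 : ℝ)) θ) volume (-π) π :=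
    (intervalIntegrable_const).add (sum_int _ (fun k => ind_int _ _ _ _) 5)
  have hb := intervalIntegral.norm_integral_le_of_norm_le (by linarith : -π ≤ π)
    (f := fun θ => w (pt ⟨1 / 2, 1 / 2⟩ ρ θ) - g θ) (Eventually.of_forall hpt) hint
  have hc : ∫ θ in (-π)..π, (δ + ∑ k ∈ Finset.range 5,
      (Ioo ((k : ℝ) * (π / 2) - π - π * t / 2)
        ((k : ℝ) * (π / 2) - π + π * t / 2)).indicator (fun _ => (1 : ℝ)) θ) ≤
      2 * π * δ + 5 * (π * t) := by
    rw [intervalIntegral.integral_add intervalIntegrable_const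
      (sum_int _ (fun k => ind_int _ _ _ _) 5),
      intervalIntegral.integral_finsetSum fun k _ => ind_int _ _ _ _,
      intervalIntegral.integral_const, smul_eq_mul]
    have : ∑ k ∈ Finset.range 5, ∫ θ in (-π)..π, (Ioo ((k : ℝ) * (π / 2) - π - π * t / 2)
        ((k : ℝ) * (π / 2) - π + π * t / 2)).indicator (fun _ => (1 : ℝ)) θ ≤
        ∑ k ∈ Finset.range 5, (π * t) := by
      refine Finset.sum_le_sum fun k _ => ?_
      refine (ind_le (by linarith) (by nlinarith)).trans ?_
      linarith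
    rw [Finset.sum_const, Finset.card_range] at this
    simp only [nsmul_eq_mul, Nat.cast_ofNat] at this
    linarith
  rw [← mul_sub, abs_mul, abs_of_pos hρ0, hsub]
  rw [Real.norm_eq_abs] at hb
  calc ρ * |∫ θ in (-π)..π, (w (pt ⟨1 / 2, 1 / 2⟩ ρ θ) - g θ)|
      ≤ ρ * (2 * π * δ + 5 * (π * t)) := by
        apply mul_le_mul_of_nonneg_left (hb.trans hc) hρ
    _ = (2 * π * ρ) * δ + 5 * π * (ρ * t) := by ring
    _ = (2 * π * ρ + 5 * π) * δ := by rw [htρ]; ring

theorem c8 (c0 : S_C0) (c1 : S_C1) : S_C8 := by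
  intro δ hδ
  obtain ⟨m₀, hm₀⟩ := c1.1 (δ / 20) (by positivity)
  refine ⟨max m₀ 1, fun m hm => ?_⟩
  obtain ⟨-, hw, h0, h1, -⟩ := c0 m ((le_max_right _ _).trans hm)
  obtain ⟨hin, hout⟩ := hm₀ m ((le_max_left _ _).trans hm)
  have hpi := Real.pi_pos
  have hpi2 := Real.pi_lt_d2
  have hcirc : ∀ ρ ∈ Icc (0 : ℝ) (3 / 10),
      |ρ * cc (wt m) ⟨1 / 2, 1 / 2⟩ ρ - ρ * (π / 2)| ≤ δ := by
    intro ρ hρ
    refine (circ hw h0 h1 (by positivity : (0 : ℝ) < δ / 20) hin hout hρ.1 hρ.2).trans ?_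
    have : (2 * π * ρ + 5 * π) ≤ 20 := by nlinarith [hρ.1, hρ.2]
    nlinarith
  have hcc : Continuous fun ρ => ρ * cc (wt m) ⟨1 / 2, 1 / 2⟩ ρ := continuous_id.mul (cc_cont hw _)
  refine ⟨?_, fun r hr => ⟨?_, ?_⟩⟩
  · have : Continuous fun r => ∫ ρ in (0 : ℝ)..r, ρ * cc (wt m) ⟨1 / 2, 1 / 2⟩ ρ :=
      intervalIntegral.continuous_primitive (fun a b => hcc.intervalIntegrable a b) 0
    exact this.continuousOn.congr fun r hr => mu_ball hw _ hr.1
  · rw [mu_ball hw _ hr.1]
    have e1 : ∫ ρ in (0 : ℝ)..r, ρ * (π / 2) = π * r ^ 2 / 4 := by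
      rw [intervalIntegral.integral_mul_const, integral_id]
      ring
    have hcc2 : Continuous fun ρ : ℝ => ρ * (π / 2) := by fun_prop
    rw [← e1, ← intervalIntegral.integral_sub (hcc.intervalIntegrable _ _)
      (hcc2.intervalIntegrable _ _)]
    have h2 := intervalIntegral.norm_integral_le_of_norm_le_const (a := 0) (b := r) (C := δ)
      (f := fun ρ => ρ * cc (wt m) ⟨1 / 2, 1 / 2⟩ ρ - ρ * (π / 2)) (fun ρ hρ => by
        rw [uIoc_of_le hr.1] at hρ
        exact hcirc ρ ⟨hρ.1.le, hρ.2.trans hr.2⟩)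
    rw [Real.norm_eq_abs] at h2
    refine h2.trans ?_
    rw [sub_zero, abs_of_nonneg hr.1]
    nlinarith [hr.2]
  · intro Y hY
    rw [flux hY.cd _ hr.1]
    have hYc := hY.cd.continuous
    have hp : Continuous fun θ : ℝ => pt ⟨1 / 2, 1 / 2⟩ r θ :=
      (pt_cont _).comp (by fun_prop : Continuous fun θ : ℝ => (r, θ))
    have h2 : ∫ θ in (-π)..π, r * ((Y (pt ⟨1 / 2, 1 / 2⟩ r θ)).re * Real.cos θ +
        (Y (pt ⟨1 / 2, 1 / 2⟩ r θ)).im * Real.sin θ) ≤
        ∫ θ in (-π)..π, r * wt m (pt ⟨1 / 2, 1 / 2⟩ r θ) := by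
      apply intervalIntegral.integral_mono_on (by linarith)
      · apply Continuous.intervalIntegrable
        exact continuous_const.mul (((Complex.continuous_re.comp (hYc.comp hp)).mul
          Real.continuous_cos).add ((Complex.continuous_im.comp (hYc.comp hp)).mul
          Real.continuous_sin))
      · exact (continuous_const.mul (hw.comp hp)).intervalIntegrable _ _
      · intro θ _
        apply mul_le_mul_of_nonneg_left _ hr.1
        have e1 : (Y (pt ⟨1 / 2, 1 / 2⟩ r θ)).re * Real.cos θ +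
            (Y (pt ⟨1 / 2, 1 / 2⟩ r θ)).im * Real.sin θ =
            (Y (pt ⟨1 / 2, 1 / 2⟩ r θ) * (starRingEnd ℂ) (ee θ)).re := by
          unfold ee
          generalize Real.cos θ = c
          generalize Real.sin θ = s
          simp
        rw [e1]
        refine (Complex.re_le_norm _).trans ?_
        rw [norm_mul, RCLike.norm_conj, ee_norm, mul_one]
        exact hY.le _
    refine h2.trans ?_
    rw [intervalIntegral.integral_const_mul]
    have h3 := (abs_le.1 (hcirc r hr)).2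
    have h4 : r * ∫ θ in (-π)..π, wt m (pt ⟨1 / 2, 1 / 2⟩ r θ) =
      r * cc (wt m) ⟨1 / 2, 1 / 2⟩ r := rfl
    rw [h4]
    linarith

end Pool.Agent.TH914.HU
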