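import Pool.Agent.TH914.HU.C2b

/-!
# C2: variation along lines (helper914 for helper703, job 4315)
-/

set_option autoImplicit false

open MeasureTheory Set Metric Filter Topology
open scoped ENNReal Real Convolution

noncomputable section

namespace Pool.Agent.TH914.HU.C2

open Pool.Agent.TH304.MI Pool.Agent.TH703.HU

/-- the indicator function with real values -/
def ind (A : Set ℂ) (x : ℂ) : ℝ := A.indicator (fun _ => (1 : ℝ)) x

theorem ind_meas {A : Set ℂ} (hA : MeasurableSet A) : Measurable (ind A) :=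
  measurable_const.indicator hA

theorem ind_cases (A : Set ℂ) (x : ℂ) : ind A x = 0 ∨ ind A x = 1 := by
  unfold ind
  by_cases h : x ∈ A
  · right; rw [indicator_of_mem h]
  · left; rw [indicator_of_notMem h]

theorem ind_abs (A : Set ℂ) (x y : ℂ) : |ind A x - ind A y| ≤ 1 := by
  rcases ind_cases A x with h | h <;> rcases ind_cases A y with h' | h' <;> rw [h, h'] <;> norm_num

theorem ind_sq (A : Set ℂ) (x y : ℂ) :
    (ind A x - ind A y) * (ind A x - ind A y) = |ind A y - ind A x| := by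
  rcases ind_cases A x with h | h <;> rcases ind_cases A y with h' | h' <;> rw [h, h'] <;> norm_num

theorem set_ind {A : Set ℂ} (hA : MeasurableSet A) (f : ℂ → ℝ) :
    ∫ x in A, f x = ∫ x, ind A x * f x := by
  rw [← integral_indicator hA]
  congr 1
  funext x
  unfold ind
  by_cases h : x ∈ A
  · rw [indicator_of_mem h, indicator_of_mem h, one_mul]
  · rw [indicator_of_notMem h, indicator_of_notMem h, zero_mul]

/-- one difference quotient -/
theorem one_dir {A : Set ℂ} (hA : MeasurableSet A) {u : ℂ → ℝ} (hu : Integrable u) (c : ℝ)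
    (v : ℂ) :
    (∫ x in A, c * u x * (ind A x - ind A (x + v))) -
      ∫ x in A, c * u (x - v) * (ind A (x - v) - ind A (x - v + v)) =
      c * ∫ x, u x * |ind A (x + v) - ind A x| := by
  have hm := ind_meas hA
  have hms : Measurable fun x => ind A (x + v) := hm.comp (measurable_id.add_const v)
  rw [set_ind hA, set_ind hA]
  have e1 : ∫ x, ind A x * (c * u (x - v) * (ind A (x - v) - ind A (x - v + v))) =
      ∫ x, ind A (x + v) * (c * u x * (ind A x - ind A (x + v))) := by
    have := integral_sub_right_eq_self (μ := volume)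
      (fun x => ind A (x + v) * (c * u x * (ind A x - ind A (x + v)))) v
    rw [← this]
    congr 1
    funext x
    rw [sub_add_cancel]
  have hb : ∀ y, ‖ind A y‖ ≤ 1 := by
    intro y
    rcases ind_cases A y with h | h <;> rw [h] <;> norm_num
  have hi : Integrable fun x => c * u x * (ind A x - ind A (x + v)) := by
    refine (hu.const_mul c).mul_bdd (c := 1) (hm.sub hms).aestronglyMeasurable
      (Eventually.of_forall fun x => ?_)
    rw [Real.norm_eq_abs]
    exact ind_abs A _ _
  have hi1 : Integrable fun x => ind A x * (c * u x * (ind A x - ind A (x + v))) :=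
    hi.bdd_mul (c := 1) hm.aestronglyMeasurable (Eventually.of_forall fun x => hb _)
  have hi2 : Integrable fun x => ind A (x + v) * (c * u x * (ind A x - ind A (x + v))) :=
    hi.bdd_mul (c := 1) hms.aestronglyMeasurable (Eventually.of_forall fun x => hb _)
  rw [e1, ← integral_sub hi1 hi2, ← integral_const_mul]
  congr 1
  funext x
  rw [← ind_sq]
  ring

/-- the inequality for all small translations -/
theorem stepC {w u : ℂ → ℝ} {A : Set ℂ} {P : ℝ} (hw : Continuous w) (hw0 : ∀ x, 0 ≤ w x)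
    (hu : Continuous u) (huc : HasCompactSupport u) (hsub : tsupport u ⊆ {x | 0 < w x})
    (hu0 : ∀ x, 0 ≤ u x) (huw : ∀ x, u x ≤ w x) (hA : MeasurableSet A) (hP : PW w A P)
    {δ : ℝ} (hδ : 0 < δ) (hδ1 : δ < 1) : ∃ ε : ℝ, 0 < ε ∧ ∀ h : ℝ, 0 < h → h ≤ ε →
      (1 - δ) * ((∫ x, u x * |ind A (x + (h : ℂ)) - ind A x|) +
        ∫ x, u x * |ind A (x + (h : ℂ) * Complex.I) - ind A x|) ≤ √2 * h * P := by
  have hopen : IsOpen {x | 0 < w x} := isOpen_lt continuous_const hw
  obtain ⟨ε1, hε1, hK⟩ := IsCompact.exists_cthickening_subset_open huc hopen hsub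
  obtain ⟨K, hKd⟩ : ∃ K, K = cthickening ε1 (tsupport u) := ⟨_, rfl⟩
  rw [← hKd] at hK
  have hKc : IsCompact K := by
    rw [hKd]
    exact IsCompact.cthickening huc
  obtain ⟨κ, hκ, hκw⟩ := hKc.exists_forall_le' hw.continuousOn (a := 0) fun b hb => hK hb
  have huu : UniformContinuous u := Continuous.uniformContinuous_of_tendsto_cocompact hu
    huc.is_zero_at_infty
  obtain ⟨ε2, hε2, hε2u⟩ := Metric.uniformContinuous_iff.1 huu (δ * κ) (by positivity)
  obtain ⟨ε, hεd⟩ : ∃ ε, ε = min ε1 (ε2 / 2) := ⟨_, rfl⟩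
  have hε : 0 < ε := by rw [hεd]; positivity
  have hmem : ∀ x z, dist z x ≤ ε → u z ≠ 0 → x ∈ K := by
    intro x z hd hne
    rw [hKd]
    refine mem_cthickening_of_dist_le x z ε1 _ (subset_tsupport _ hne) ?_
    rw [dist_comm]
    exact hd.trans (by rw [hεd]; exact min_le_left _ _)
  have hδ' : 0 < 1 - δ := by linarith
  have hUw : ∀ x z, dist z x ≤ ε → (1 - δ) * u z ≤ w x := by
    intro x z hd
    by_cases hz : u z = 0
    · rw [hz, mul_zero]
      exact hw0 x
    · have hxK := hmem x z hd hz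
      have h1 : dist (u z) (u x) < δ * κ := by
        apply hε2u
        have : ε ≤ ε2 / 2 := by rw [hεd]; exact min_le_right _ _
        linarith
      rw [Real.dist_eq, abs_lt] at h1
      have h2 := hκw x hxK
      have h3 := huw x
      nlinarith [h1.2]
  refine ⟨ε / 2, by positivity, fun h hh hhε => ?_⟩
  obtain ⟨G1, hG1⟩ : ∃ G1 : ℂ → ℝ, G1 = fun x => (1 - δ) * u x * (ind A x - ind A (x + (h : ℂ))) :=
    ⟨_, rfl⟩
  obtain ⟨G2, hG2⟩ : ∃ G2 : ℂ → ℝ, G2 = fun x =>
    (1 - δ) * u x * (ind A x - ind A (x + (h : ℂ) * Complex.I)) := ⟨_, rfl⟩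
  have hm := ind_meas hA
  have hms : ∀ v : ℂ, Measurable fun x => ind A (x + v) := fun v =>
    hm.comp (measurable_id.add_const v)
  have m1 : Measurable G1 := by
    rw [hG1]
    exact (measurable_const.mul hu.measurable).mul (hm.sub (hms _))
  have m2 : Measurable G2 := by
    rw [hG2]
    exact (measurable_const.mul hu.measurable).mul (hm.sub (hms _))
  have hbd : ∀ (x v : ℂ), |(1 - δ) * u x * (ind A x - ind A (x + v))| ≤ (1 - δ) * u x := by
    intro x v
    rw [abs_mul, abs_of_nonneg (mul_nonneg hδ'.le (hu0 x))]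
    have := ind_abs A x (x + v)
    nlinarith [mul_nonneg hδ'.le (hu0 x)]
  have q := stepB hP hw0 (U := fun x => (1 - δ) * u x) (continuous_const.mul hu)
    (huc.mul_left (f := fun _ => 1 - δ)) hε hKc.isClosed hK hUw
    (fun x z hd hne => hmem x z hd (right_ne_zero_of_mul hne)) hh hhε m1 m2
    (fun x => by rw [hG1]; exact hbd x _) (fun x => by rw [hG2]; exact hbd x _)
  have hui : Integrable u := hu.integrable_of_hasCompactSupport huc
  have e1 := one_dir hA hui (1 - δ) (h : ℂ)
  have e2 := one_dir hA hui (1 - δ) ((h : ℂ) * Complex.I)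
  rw [hG1, hG2] at q
  simp only at q
  rw [e1, e2] at q
  linarith

/-- Fubini -/
theorem fub {g : ℂ → ℝ≥0∞} (hg : Measurable g) :
    (∫⁻ y : ℝ, ∫⁻ t : ℝ, g ⟨t, y⟩) = ∫⁻ z, g z ∧ (∫⁻ x : ℝ, ∫⁻ t : ℝ, g ⟨x, t⟩) = ∫⁻ z, g z := by
  have hs : Measurable fun p : ℝ × ℝ => g (Complex.measurableEquivRealProd.symm p) :=
    hg.comp Complex.measurableEquivRealProd.symm.measurable
  have e : ∫⁻ z, g z = ∫⁻ p : ℝ × ℝ, g (Complex.measurableEquivRealProd.symm p) :=
    (Complex.volume_preserving_equiv_real_prod.symm.lintegral_comp_emb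
      Complex.measurableEquivRealProd.symm.measurableEmbedding g).symm
  rw [e, Measure.volume_eq_prod]
  refine ⟨?_, ?_⟩
  · rw [lintegral_prod_symm _ hs.aemeasurable]
    rfl
  · rw [lintegral_prod _ hs.aemeasurable]
    rfl

/-- sum of two lower limits -/
theorem liminf_add (a b : ℕ → ℝ≥0∞) :
    liminf a atTop + liminf b atTop ≤ liminf (fun n => a n + b n) atTop := by
  have h := lintegral_liminf_le (μ := (Measure.count : Measure Bool)) (u := (atTop : Filter ℕ))
    (f := fun n c => cond c (a n) (b n)) (fun n => measurable_from_top)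
  simp only [lintegral_count, tsum_bool] at h
  have e : ∀ n, b n + a n = a n + b n := fun n => add_comm _ _
  simp only [cond_true, cond_false, e] at h
  rw [add_comm]
  exact h

theorem c2 : S_C2 := by
  intro w u A P hw hw0 hu huc hsub hu0 huw hA hP
  have hP0 : 0 ≤ P := by
    have h0 : TW w (fun _ => (0 : ℂ)) := by
      refine ⟨contDiff_const, HasCompactSupport.zero, ?_, fun x => ?_⟩
      · have : tsupport (fun _ : ℂ => (0 : ℂ)) = ∅ := by
          rw [tsupport_eq_empty_iff]
          rfl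
        rw [this]
        exact empty_subset _
      · rw [norm_zero]
        exact hw0 x
    have h1 := hP _ h0
    have h2 : ∀ x : ℂ, dv2 (fun _ => (0 : ℂ)) x = 0 := by
      intro x
      unfold dv2
      simp
    simp_rw [h2] at h1
    simpa using h1
  have hui : Integrable u := hu.integrable_of_hasCompactSupport huc
  have hm := ind_meas hA
  have hms : ∀ v : ℂ, Measurable fun x => ind A (x + v) := fun v =>
    hm.comp (measurable_id.add_const v)
  -- the functions
  obtain ⟨g, hg⟩ : ∃ g : ℂ → ℂ → ℝ, g = fun v x => u x * |ind A (x + v) - ind A x| := ⟨_, rfl⟩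
  have hgm : ∀ v, Measurable (g v) := by
    intro v
    rw [hg]
    exact hu.measurable.mul (measurable_abs.comp ((hms v).sub hm))
  have hgi : ∀ v, Integrable (g v) := by
    intro v
    refine hui.mono' (hgm v).aestronglyMeasurable (Eventually.of_forall fun x => ?_)
    rw [hg, Real.norm_eq_abs]
    simp only
    rw [abs_mul, abs_abs, abs_of_nonneg (hu0 x)]
    have := ind_abs A (x + v) x
    nlinarith [hu0 x]
  have hg0 : ∀ v x, 0 ≤ g v x := by
    intro v x
    rw [hg]
    exact mul_nonneg (hu0 x) (abs_nonneg _)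
  -- Fatou
  have F1 : ∫⁻ y : ℝ, ev (fun t => u ⟨t, y⟩) {t | (⟨t, y⟩ : ℂ) ∈ A} ≤
      liminf (fun n : ℕ => ((n : ℝ≥0∞) + 1) *
        ENNReal.ofReal (∫ z, g ((1 / ((n : ℝ) + 1) : ℝ) : ℂ) z)) atTop := by
    have e : ∀ y : ℝ, ev (fun t => u ⟨t, y⟩) {t | (⟨t, y⟩ : ℂ) ∈ A} =
        liminf (fun n : ℕ => ((n : ℝ≥0∞) + 1) *
          ∫⁻ t : ℝ, ENNReal.ofReal (g ((1 / ((n : ℝ) + 1) : ℝ) : ℂ) ⟨t, y⟩)) atTop := by
      intro y
      unfold ev
      congr 1
      funext n
      congr 2
      funext t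
      rw [hg]
      congr 4
      · have : (⟨t, y⟩ : ℂ) + ((1 / ((n : ℝ) + 1) : ℝ) : ℂ) = ⟨t + 1 / ((n : ℝ) + 1), y⟩ := by
          generalize (1 / ((n : ℝ) + 1) : ℝ) = r
          apply Complex.ext <;> simp
        rw [this]
        rfl
    simp_rw [e]
    refine (lintegral_liminf_le fun n => ?_).trans ?_
    · apply Measurable.const_mul
      have h1 : Measurable fun p : ℝ × ℝ =>
          ENNReal.ofReal (g ((1 / ((n : ℝ) + 1) : ℝ) : ℂ) ⟨p.2, p.1⟩) := by
        refine ENNReal.measurable_ofReal.comp ((hgm _).comp ?_)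
        exact Complex.measurableEquivRealProd.symm.measurable.comp
          (measurable_snd.prodMk measurable_fst)
      exact h1.lintegral_prod_right'
    · refine liminf_le_liminf (Eventually.of_forall fun n => ?_)
      rw [lintegral_const_mul]
      · gcongr
        rw [(fub (g := fun z => ENNReal.ofReal (g ((1 / ((n : ℝ) + 1) : ℝ) : ℂ) z))
          (ENNReal.measurable_ofReal.comp (hgm _))).1, ofReal_integral_eq_lintegral_ofReal
          (hgi _) (Eventually.of_forall fun x => hg0 _ x)]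
      · have h1 : Measurable fun p : ℝ × ℝ =>
            ENNReal.ofReal (g ((1 / ((n : ℝ) + 1) : ℝ) : ℂ) ⟨p.2, p.1⟩) := by
          refine ENNReal.measurable_ofReal.comp ((hgm _).comp ?_)
          exact Complex.measurableEquivRealProd.symm.measurable.comp
            (measurable_snd.prodMk measurable_fst)
        exact h1.lintegral_prod_right'
  have F2 : ∫⁻ x : ℝ, ev (fun t => u ⟨x, t⟩) {t | (⟨x, t⟩ : ℂ) ∈ A} ≤
      liminf (fun n : ℕ => ((n : ℝ≥0∞) + 1) *
        ENNReal.ofReal (∫ z, g (((1 / ((n : ℝ) + 1) : ℝ) : ℂ) * Complex.I) z)) atTop := by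
    have e : ∀ x : ℝ, ev (fun t => u ⟨x, t⟩) {t | (⟨x, t⟩ : ℂ) ∈ A} =
        liminf (fun n : ℕ => ((n : ℝ≥0∞) + 1) *
          ∫⁻ t : ℝ, ENNReal.ofReal (g (((1 / ((n : ℝ) + 1) : ℝ) : ℂ) * Complex.I) ⟨x, t⟩))
            atTop := by
      intro x
      unfold ev
      congr 1
      funext n
      congr 2
      funext t
      rw [hg]
      congr 4
      · have : (⟨x, t⟩ : ℂ) + ((1 / ((n : ℝ) + 1) : ℝ) : ℂ) * Complex.I =
            ⟨x, t + 1 / ((n : ℝ) + 1)⟩ := by
          generalize (1 / ((n : ℝ) + 1) : ℝ) = r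
          apply Complex.ext <;> simp
        rw [this]
        rfl
    simp_rw [e]
    refine (lintegral_liminf_le fun n => ?_).trans ?_
    · apply Measurable.const_mul
      have h1 : Measurable fun p : ℝ × ℝ =>
          ENNReal.ofReal (g (((1 / ((n : ℝ) + 1) : ℝ) : ℂ) * Complex.I) ⟨p.1, p.2⟩) := by
        refine ENNReal.measurable_ofReal.comp ((hgm _).comp ?_)
        exact Complex.measurableEquivRealProd.symm.measurable
      exact h1.lintegral_prod_right'
    · refine liminf_le_liminf (Eventually.of_forall fun n => ?_)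
      rw [lintegral_const_mul]
      · gcongr
        rw [(fub (g := fun z => ENNReal.ofReal (g (((1 / ((n : ℝ) + 1) : ℝ) : ℂ) * Complex.I) z))
          (ENNReal.measurable_ofReal.comp (hgm _))).2, ofReal_integral_eq_lintegral_ofReal
          (hgi _) (Eventually.of_forall fun x => hg0 _ x)]
      · have h1 : Measurable fun p : ℝ × ℝ =>
            ENNReal.ofReal (g (((1 / ((n : ℝ) + 1) : ℝ) : ℂ) * Complex.I) ⟨p.1, p.2⟩) := by
          refine ENNReal.measurable_ofReal.comp ((hgm _).comp ?_)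
          exact Complex.measurableEquivRealProd.symm.measurable
        exact h1.lintegral_prod_right'
  refine (add_le_add F1 F2).trans ((liminf_add _ _).trans ?_)
  -- for each `δ`
  have hδ : ∀ δ : ℝ, 0 < δ → δ < 1 → liminf (fun n : ℕ => ((n : ℝ≥0∞) + 1) *
      ENNReal.ofReal (∫ z, g ((1 / ((n : ℝ) + 1) : ℝ) : ℂ) z) + ((n : ℝ≥0∞) + 1) *
      ENNReal.ofReal (∫ z, g (((1 / ((n : ℝ) + 1) : ℝ) : ℂ) * Complex.I) z)) atTop ≤
      ENNReal.ofReal (√2 * P / (1 - δ)) := by
    intro δ hδ hδ1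
    obtain ⟨ε, hε, hε2⟩ := stepC hw hw0 hu huc hsub hu0 huw hA hP hδ hδ1
    have hev : ∀ᶠ n : ℕ in atTop, ((n : ℝ≥0∞) + 1) *
        ENNReal.ofReal (∫ z, g ((1 / ((n : ℝ) + 1) : ℝ) : ℂ) z) + ((n : ℝ≥0∞) + 1) *
        ENNReal.ofReal (∫ z, g (((1 / ((n : ℝ) + 1) : ℝ) : ℂ) * Complex.I) z) ≤
        ENNReal.ofReal (√2 * P / (1 - δ)) := by
      have h1 := (tendsto_one_div_add_atTop_nhds_zero_nat (𝕜 := ℝ)).eventually_le_const hε
      filter_upwards [h1] with n hn
      have hn0 : (0 : ℝ) < 1 / ((n : ℝ) + 1) := by positivity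
      have h2 := hε2 _ hn0 hn
      have e1 : ((n : ℝ≥0∞) + 1) = ENNReal.ofReal ((n : ℝ) + 1) := by
        rw [ENNReal.ofReal_add (Nat.cast_nonneg n) zero_le_one, ENNReal.ofReal_natCast,
          ENNReal.ofReal_one]
      have i1 : 0 ≤ ∫ z, g ((1 / ((n : ℝ) + 1) : ℝ) : ℂ) z := integral_nonneg (hg0 _)
      have i2 : 0 ≤ ∫ z, g (((1 / ((n : ℝ) + 1) : ℝ) : ℂ) * Complex.I) z :=
        integral_nonneg (hg0 _)
      rw [e1, ← mul_add, ← ENNReal.ofReal_add i1 i2, ← ENNReal.ofReal_mul (by positivity)]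
      apply ENNReal.ofReal_le_ofReal
      rw [le_div_iff₀ (by linarith)]
      have h3 : (1 - δ) * ((∫ z, g ((1 / ((n : ℝ) + 1) : ℝ) : ℂ) z) +
          ∫ z, g (((1 / ((n : ℝ) + 1) : ℝ) : ℂ) * Complex.I) z) ≤
          √2 * (1 / ((n : ℝ) + 1)) * P := by
        rw [hg]
        exact h2
      have h4 : (0 : ℝ) < (n : ℝ) + 1 := by positivity
      have h5 := mul_le_mul_of_nonneg_left h3 h4.le
      have h6 : ((n : ℝ) + 1) * (√2 * (1 / ((n : ℝ) + 1)) * P) = √2 * P := by
        field_simp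
      rw [h6] at h5
      linarith
    refine (liminf_le_liminf hev).trans ?_
    rw [liminf_const]
  have hlim : Tendsto (fun δ : ℝ => ENNReal.ofReal (√2 * P / (1 - δ))) (𝓝[>] 0)
      (𝓝 (ENNReal.ofReal (√2 * P))) := by
    refine (ENNReal.continuous_ofReal.tendsto _).comp ?_
    have h1 : ContinuousAt (fun δ : ℝ => √2 * P / (1 - δ)) 0 := by
      apply ContinuousAt.div continuousAt_const (by fun_prop)
      norm_num
    have h2 := h1.tendsto.mono_left (nhdsWithin_le_nhds (s := Ioi 0))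
    simpa using h2
  refine ge_of_tendsto hlim ?_
  filter_upwards [Ioo_mem_nhdsGT (zero_lt_one (α := ℝ))] with δ hδ'
  exact hδ δ hδ'.1 hδ'.2

end Pool.Agent.TH914.HU.C2
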