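import Pool.Agent.TH703.HU.Stm

/-!
# C2, part 1: smooth fields with two translations (helper914 for helper703, job 4315)
-/

set_option autoImplicit false

open MeasureTheory Set Metric Filter Topology
open scoped ENNReal Real Convolution

noncomputable section

namespace Pool.Agent.TH914.HU.C2

open Pool.Agent.TH304.MI Pool.Agent.TH703.HU

/-- derivative of the translates of a smooth function, integrated over a set -/
theorem trans_deriv {ψ : ℂ → ℝ} (hψ : ContDiff ℝ 1 ψ) (hc : HasCompactSupport ψ) (A : Set ℂ)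
    (v : ℂ) (t : ℝ) : HasDerivAt (fun t : ℝ => ∫ x in A, ψ (x - t • v))
      (∫ x in A, -(fderiv ℝ ψ (x - t • v) v)) t := by
  obtain ⟨C, hC⟩ : ∃ C, ∀ x, ‖fderiv ℝ ψ x‖ ≤ C :=
    (hc.fderiv ℝ).exists_bound_of_continuous (hψ.continuous_fderiv (by norm_num))
  have hC0 : 0 ≤ C := (norm_nonneg _).trans (hC 0)
  obtain ⟨R, hR⟩ : ∃ R : ℝ, tsupport ψ ⊆ closedBall 0 R := hc.isBounded.subset_closedBall 0
  have hfd0 : ∀ x, R < ‖x‖ → fderiv ℝ ψ x = 0 := by
    intro x hx
    by_contra hne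
    have h2 : x ∈ tsupport ψ := support_fderiv_subset ℝ (f := ψ) hne
    have h3 := hR h2
    rw [mem_closedBall_zero_iff] at h3
    linarith
  refine (hasDerivAt_integral_of_dominated_loc_of_deriv_le (μ := volume.restrict A)
    (F := fun t x => ψ (x - t • v)) (F' := fun t x => -(fderiv ℝ ψ (x - t • v) v))
    (bound := fun x => (closedBall (0 : ℂ) (R + (|t| + 1) * ‖v‖)).indicator
      (fun _ => C * ‖v‖) x)
    (s := ball t 1) (ball_mem_nhds t one_pos) ?_ ?_ ?_ ?_ ?_ ?_).2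
  · exact Eventually.of_forall fun s =>
      (hψ.continuous.comp (by fun_prop)).aestronglyMeasurable
  · have h1 : Continuous (fun x : ℂ => ψ (x - t • v)) := hψ.continuous.comp (by fun_prop)
    have h2 : HasCompactSupport (fun x : ℂ => ψ (x - t • v)) := by
      have := hc.comp_homeomorph (Homeomorph.subRight (t • v))
      exact this
    exact (h1.integrable_of_hasCompactSupport h2).integrableOn
  · have h1 : Continuous (fun x : ℂ => fderiv ℝ ψ (x - t • v) v) :=
      ((hψ.continuous_fderiv (by norm_num)).comp (by fun_prop)).clm_apply continuous_const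
    exact h1.neg.aestronglyMeasurable
  · refine Eventually.of_forall fun x s hs => ?_
    rw [norm_neg]
    by_cases hx : x ∈ closedBall (0 : ℂ) (R + (|t| + 1) * ‖v‖)
    · rw [indicator_of_mem hx]
      calc ‖fderiv ℝ ψ (x - s • v) v‖ ≤ ‖fderiv ℝ ψ (x - s • v)‖ * ‖v‖ :=
            ContinuousLinearMap.le_opNorm _ _
        _ ≤ C * ‖v‖ := by gcongr; exact hC _
    · rw [indicator_of_notMem hx]
      rw [mem_closedBall, dist_zero_right, not_le] at hx
      have h3 : ‖s • v‖ ≤ (|t| + 1) * ‖v‖ := by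
        rw [norm_smul, Real.norm_eq_abs]
        have h4 : |s| ≤ |t| + 1 := by
          rw [mem_ball, Real.dist_eq] at hs
          have := abs_sub_abs_le_abs_sub s t
          linarith
        gcongr
      have h5 : R < ‖x - s • v‖ := by
        have := norm_sub_norm_le x (s • v)
        linarith
      rw [hfd0 _ h5]; simp
  · rw [integrable_indicator_iff measurableSet_closedBall]
    refine integrableOn_const ?_ ?_
    · exact ((Measure.restrict_apply_le _ _).trans_lt measure_closedBall_lt_top).ne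
    · exact enorm_ne_top
  · refine Eventually.of_forall fun x s _ => ?_
    have h1 : HasDerivAt (fun s : ℝ => x - s • v) (-v) s := by
      simpa using ((hasDerivAt_id s).smul_const v).const_sub x
    have h2 := ((hψ.differentiable (by norm_num)) (x - s • v)).hasFDerivAt.comp_hasDerivAt s h1
    rw [map_neg] at h2
    exact h2

theorem fderiv_trans {ψ : ℂ → ℝ} (hψ : ContDiff ℝ 1 ψ) (z x : ℂ) :
    HasFDerivAt (fun x => ψ (x - z)) (fderiv ℝ ψ (x - z)) x := by
  have h8 : HasFDerivAt (fun x : ℂ => x - z) (ContinuousLinearMap.id ℝ ℂ) x :=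
    (hasFDerivAt_id x).sub_const _
  have h9 := ((hψ.differentiable (by norm_num)) (x - z)).hasFDerivAt.comp x h8
  rw [ContinuousLinearMap.comp_id] at h9
  exact h9

/-- the divergence of a field given by two real functions -/
theorem dv2_mk {a b : ℂ → ℝ} {x : ℂ} {a' b' : ℂ →L[ℝ] ℝ} (ha : HasFDerivAt a a' x)
    (hb : HasFDerivAt b b' x) :
    dv2 (fun x => (a x : ℂ) + (b x : ℂ) * Complex.I) x = a' 1 + b' Complex.I := by
  have h1 := (Complex.ofRealCLM.hasFDerivAt (x := a x)).comp x ha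
  have h2 := (Complex.ofRealCLM.hasFDerivAt (x := b x)).comp x hb
  have h3 := h1.add (h2.mul_const Complex.I)
  unfold dv2
  have e : (fun x => (a x : ℂ) + (b x : ℂ) * Complex.I) =
      (Complex.ofRealCLM ∘ a) + (fun x => (Complex.ofRealCLM ∘ b) x * Complex.I) := by
    funext y
    simp
  rw [e, h3.fderiv]
  simp

/-- the inequality for smooth functions -/
theorem stepA {w : ℂ → ℝ} {A : Set ℂ} {P : ℝ} (hP : PW w A P) {ψ1 ψ2 : ℂ → ℝ}
    (h1 : ContDiff ℝ 1 ψ1) (h2 : ContDiff ℝ 1 ψ2) (c1 : HasCompactSupport ψ1)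
    (c2 : HasCompactSupport ψ2) {h : ℝ} (hh : 0 < h) {K : Set ℂ} (hK : IsClosed K)
    (hKw : K ⊆ {x | 0 < w x}) (hw0 : ∀ x, 0 ≤ w x)
    (b1 : ∀ x, ∀ t ∈ Icc (0 : ℝ) 1, |ψ1 (x - t • (h : ℂ))| ≤ w x)
    (b2 : ∀ x, ∀ t ∈ Icc (0 : ℝ) 1, |ψ2 (x - t • ((h : ℂ) * Complex.I))| ≤ w x)
    (s1 : ∀ x, ∀ t ∈ Icc (0 : ℝ) 1, ψ1 (x - t • (h : ℂ)) ≠ 0 → x ∈ K)
    (s2 : ∀ x, ∀ t ∈ Icc (0 : ℝ) 1, ψ2 (x - t • ((h : ℂ) * Complex.I)) ≠ 0 → x ∈ K) :
    ((∫ x in A, ψ1 x) - ∫ x in A, ψ1 (x - (h : ℂ))) +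
      ((∫ x in A, ψ2 x) - ∫ x in A, ψ2 (x - (h : ℂ) * Complex.I)) ≤ √2 * h * P := by
  have hder : ∀ t : ℝ, HasDerivAt (fun t : ℝ => (∫ x in A, ψ1 (x - t • (h : ℂ))) +
      ∫ x in A, ψ2 (x - t • ((h : ℂ) * Complex.I)))
      ((∫ x in A, -(fderiv ℝ ψ1 (x - t • (h : ℂ)) (h : ℂ))) +
        ∫ x in A, -(fderiv ℝ ψ2 (x - t • ((h : ℂ) * Complex.I)) ((h : ℂ) * Complex.I))) t :=
    fun t => (trans_deriv h1 c1 A _ t).add (trans_deriv h2 c2 A _ t)
  obtain ⟨t, ht, hslope⟩ := exists_hasDerivAt_eq_slope _ _ (zero_lt_one (α := ℝ))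
    (fun t _ => (hder t).continuousAt.continuousWithinAt) (fun t _ => hder t)
  simp only [zero_smul, sub_zero, one_smul, div_one] at hslope
  have ht' : t ∈ Icc (0 : ℝ) 1 := ⟨ht.1.le, ht.2.le⟩
  have h20 : (0 : ℝ) < √2 := by positivity
  have hsq : √2 * √2 = 2 := Real.mul_self_sqrt (by norm_num)
  -- the field
  obtain ⟨a, ha⟩ : ∃ a : ℂ → ℝ, a = fun x => (√2)⁻¹ * ψ1 (x - t • (h : ℂ)) := ⟨_, rfl⟩
  obtain ⟨b, hb⟩ : ∃ b : ℂ → ℝ, b = fun x => (√2)⁻¹ * ψ2 (x - t • ((h : ℂ) * Complex.I)) :=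
    ⟨_, rfl⟩
  have had : ∀ x, HasFDerivAt a ((√2)⁻¹ • fderiv ℝ ψ1 (x - t • (h : ℂ))) x := by
    intro x
    rw [ha]
    exact (fderiv_trans h1 _ x).const_mul _
  have hbd : ∀ x, HasFDerivAt b
      ((√2)⁻¹ • fderiv ℝ ψ2 (x - t • ((h : ℂ) * Complex.I))) x := by
    intro x
    rw [hb]
    exact (fderiv_trans h2 _ x).const_mul _
  have hac : ContDiff ℝ 1 a := by
    rw [ha]
    exact contDiff_const.mul (h1.comp (contDiff_id.sub contDiff_const))
  have hbc : ContDiff ℝ 1 b := by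
    rw [hb]
    exact contDiff_const.mul (h2.comp (contDiff_id.sub contDiff_const))
  have hca : HasCompactSupport a := by
    rw [ha]
    exact (c1.comp_homeomorph (Homeomorph.subRight (t • (h : ℂ)))).mul_left (f := fun _ => (√2)⁻¹)
  have hcb : HasCompactSupport b := by
    rw [hb]
    exact (c2.comp_homeomorph (Homeomorph.subRight (t • ((h : ℂ) * Complex.I)))).mul_left
      (f := fun _ => (√2)⁻¹)
  have hTW : TW w (fun x => (a x : ℂ) + (b x : ℂ) * Complex.I) := by
    refine ⟨?_, ?_, ?_, ?_⟩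
    · exact (Complex.ofRealCLM.contDiff.comp hac).add
        ((Complex.ofRealCLM.contDiff.comp hbc).mul contDiff_const)
    · apply HasCompactSupport.add
      · exact hca.comp_left (g := fun r : ℝ => (r : ℂ)) (by simp)
      · exact (hcb.comp_left (g := fun r : ℝ => (r : ℂ)) (by simp)).mul_right
    · refine Subset.trans (closure_minimal ?_ hK) hKw
      intro x hx
      by_contra hxK
      apply hx
      have e1 : ψ1 (x - t • (h : ℂ)) = 0 := by
        by_contra hne
        exact hxK (s1 x t ht' hne)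
      have e2 : ψ2 (x - t • ((h : ℂ) * Complex.I)) = 0 := by
        by_contra hne
        exact hxK (s2 x t ht' hne)
      simp only [ha, hb, e1, e2]
      simp
    · intro x
      have q1 := b1 x t ht'
      have q2 := b2 x t ht'
      rw [Complex.norm_add_mul_I]
      rw [Real.sqrt_le_left (hw0 x), ha, hb]
      have e1 : ψ1 (x - t • (h : ℂ)) ^ 2 ≤ w x ^ 2 := by
        rw [← sq_abs]
        exact pow_le_pow_left₀ (abs_nonneg _) q1 2
      have e2 : ψ2 (x - t • ((h : ℂ) * Complex.I)) ^ 2 ≤ w x ^ 2 := by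
        rw [← sq_abs]
        exact pow_le_pow_left₀ (abs_nonneg _) q2 2
      have e3 : ((√2)⁻¹) ^ 2 = 1 / 2 := by
        rw [inv_pow, Real.sq_sqrt (by norm_num)]
        norm_num
      rw [mul_pow, mul_pow, e3]
      linarith
  have h6 := hP _ hTW
  have e1 : ∀ x, dv2 (fun x => (a x : ℂ) + (b x : ℂ) * Complex.I) x =
      (√2)⁻¹ * (fderiv ℝ ψ1 (x - t • (h : ℂ)) 1 +
        fderiv ℝ ψ2 (x - t • ((h : ℂ) * Complex.I)) Complex.I) := by
    intro x
    rw [dv2_mk (had x) (hbd x)]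
    simp
    ring
  simp_rw [e1] at h6
  rw [integral_const_mul] at h6
  have i1 : Integrable (fun x => fderiv ℝ ψ1 (x - t • (h : ℂ)) 1) := by
    have q1 : Continuous (fun x : ℂ => fderiv ℝ ψ1 x 1) :=
      (h1.continuous_fderiv (by norm_num)).clm_apply continuous_const
    have q2 : HasCompactSupport (fun x : ℂ => fderiv ℝ ψ1 x 1) := c1.fderiv_apply (𝕜 := ℝ) 1
    exact (q1.integrable_of_hasCompactSupport q2).comp_sub_right _
  have i2 : Integrable (fun x => fderiv ℝ ψ2 (x - t • ((h : ℂ) * Complex.I)) Complex.I) := by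
    have q1 : Continuous (fun x : ℂ => fderiv ℝ ψ2 x Complex.I) :=
      (h2.continuous_fderiv (by norm_num)).clm_apply continuous_const
    have q2 : HasCompactSupport (fun x : ℂ => fderiv ℝ ψ2 x Complex.I) :=
      c2.fderiv_apply (𝕜 := ℝ) Complex.I
    exact (q1.integrable_of_hasCompactSupport q2).comp_sub_right _
  rw [integral_add i1.integrableOn i2.integrableOn] at h6
  have l1 : ∀ z : ℂ, fderiv ℝ ψ1 z (h : ℂ) = h * fderiv ℝ ψ1 z 1 := by
    intro z
    rw [← smul_eq_mul, ← map_smul]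
    congr 1
    simp
  have l2 : ∀ z : ℂ, fderiv ℝ ψ2 z ((h : ℂ) * Complex.I) = h * fderiv ℝ ψ2 z Complex.I := by
    intro z
    have e : ((h : ℂ) * Complex.I) = h • Complex.I := Complex.real_smul.symm
    rw [e, map_smul, smul_eq_mul]
  simp_rw [l1, l2, integral_neg, integral_const_mul] at hslope
  have h7 : (∫ x in A, fderiv ℝ ψ1 (x - t • (h : ℂ)) 1) +
      ∫ x in A, fderiv ℝ ψ2 (x - t • ((h : ℂ) * Complex.I)) Complex.I ≤ √2 * P := by
    rw [inv_mul_le_iff₀ h20] at h6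
    exact h6
  have h8 := mul_le_mul_of_nonneg_left h7 hh.le
  linarith

end Pool.Agent.TH914.HU.C2
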