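import Pool.Agent.TH914.HU.C2a

/-!
# C2, part 2: bounded measurable functions (helper914 for helper703, job 4315)
-/

set_option autoImplicit false

open MeasureTheory Set Metric Filter Topology
open scoped ENNReal Real Convolution

noncomputable section

namespace Pool.Agent.TH914.HU.C2

open Pool.Agent.TH304.MI Pool.Agent.TH703.HU

/-- mollification -/
def mol (φ : ContDiffBump (0 : ℂ)) (G : ℂ → ℝ) : ℂ → ℝ :=
  φ.normed volume ⋆[ContinuousLinearMap.lsmul ℝ ℝ, volume] G

theorem mol_bound (φ : ContDiffBump (0 : ℂ)) {G : ℂ → ℝ} (hG : Measurable G) {x : ℂ} {M : ℝ}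
    (hM : 0 ≤ M) (h : ∀ y ∈ ball x φ.rOut, |G y| ≤ M) : |mol φ G x| ≤ M := by
  have := MeasureTheory.dist_convolution_le (μ := (volume : Measure ℂ)) hM
    (f := φ.normed (volume : Measure ℂ)) (g := G) (x₀ := x) (R := φ.rOut) (z₀ := (0 : ℝ))
    (by rw [φ.support_normed_eq (μ := (volume : Measure ℂ))])
    (φ.nonneg_normed (μ := (volume : Measure ℂ))) (φ.integral_normed (μ := (volume : Measure ℂ)))
    hG.aestronglyMeasurable
    (fun y hy => by simpa [Real.dist_eq] using h y hy)
  rw [Real.dist_eq, sub_zero] at this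
  exact this

theorem mol_cd (φ : ContDiffBump (0 : ℂ)) {G : ℂ → ℝ} (hG : LocallyIntegrable G) :
    ContDiff ℝ 1 (mol φ G) := by
  have h1 : HasCompactSupport (φ.normed (volume : Measure ℂ)) := φ.hasCompactSupport_normed
  have h2 : ContDiff ℝ ((1 : ℕ∞) : WithTop ℕ∞) (φ.normed (volume : Measure ℂ)) :=
    φ.contDiff_normed
  have := h1.contDiff_convolution_left (n := (1 : ℕ∞))
    (ContinuousLinearMap.lsmul ℝ ℝ) (μ := (volume : Measure ℂ)) h2 hG
  exact_mod_cast this

theorem mol_cs (φ : ContDiffBump (0 : ℂ)) {G : ℂ → ℝ} (hG : HasCompactSupport G) :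
    HasCompactSupport (mol φ G) :=
  φ.hasCompactSupport_normed.convolution _ hG

/-- the sequence of bumps -/
def bmp (ε : ℝ) (hε : 0 < ε) (k : ℕ) : ContDiffBump (0 : ℂ) :=
  ⟨ε / (4 * ((k : ℝ) + 1)), 2 * (ε / (4 * ((k : ℝ) + 1))), by positivity, by
    have : 0 < ε / (4 * ((k : ℝ) + 1)) := by positivity
    linarith⟩

theorem bmp_le (ε : ℝ) (hε : 0 < ε) (k : ℕ) : (bmp ε hε k).rOut ≤ ε / 2 := by
  show 2 * (ε / (4 * ((k : ℝ) + 1))) ≤ ε / 2
  have h : ε / (4 * ((k : ℝ) + 1)) ≤ ε / 4 := by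
    apply div_le_div_of_nonneg_left hε.le (by norm_num)
    have : (0 : ℝ) ≤ k := Nat.cast_nonneg k
    linarith
  linarith

theorem bmp_tendsto (ε : ℝ) (hε : 0 < ε) : Tendsto (fun k => (bmp ε hε k).rOut) atTop (𝓝 0) := by
  show Tendsto (fun k : ℕ => 2 * (ε / (4 * ((k : ℝ) + 1)))) atTop (𝓝 0)
  have h := (tendsto_one_div_add_atTop_nhds_zero_nat (𝕜 := ℝ)).const_mul (ε / 2)
  rw [mul_zero] at h
  refine h.congr fun k => ?_
  have : (k : ℝ) + 1 ≠ 0 := by positivity
  field_simp
  ring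

/-- convergence in `L¹` -/
theorem mol_tendsto {ε : ℝ} (hε : 0 < ε) {G : ℂ → ℝ} (hG : Measurable G) {C : ℝ}
    (hC : ∀ x, |G x| ≤ C) (hc : HasCompactSupport G) :
    Tendsto (fun k => ∫ x, |mol (bmp ε hε k) G x - G x|) atTop (𝓝 0) := by
  have hC0 : 0 ≤ C := (abs_nonneg _).trans (hC 0)
  have hGi : Integrable G := by
    have h1 : IntegrableOn G (tsupport G) := by
      refine Measure.integrableOn_of_bounded (M := C) hc.measure_lt_top.ne
        hG.aestronglyMeasurable (Eventually.of_forall fun x => hC x)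
    exact h1.integrable_of_forall_notMem_eq_zero fun x hx => image_eq_zero_of_notMem_tsupport hx
  obtain ⟨R, hR⟩ : ∃ R : ℝ, tsupport G ⊆ closedBall 0 R := hc.isBounded.subset_closedBall 0
  have hlim : ∀ᵐ x : ℂ, Tendsto (fun k => mol (bmp ε hε k) G x) atTop (𝓝 (G x)) := by
    refine ContDiffBump.ae_convolution_tendsto_right_of_locallyIntegrable (K := 2)
      (bmp_tendsto ε hε) (Eventually.of_forall fun k => le_rfl) hGi.locallyIntegrable
  have h0 : (0 : ℝ) = ∫ x : ℂ, (0 : ℝ) := by simp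
  rw [h0]
  refine tendsto_integral_of_dominated_convergence
    (fun x => (closedBall (0 : ℂ) (R + ε)).indicator (fun _ => 2 * C) x) ?_ ?_ ?_ ?_
  · intro k
    exact ((mol_cd _ hGi.locallyIntegrable).continuous.aestronglyMeasurable.sub
      hG.aestronglyMeasurable).norm
  · rw [integrable_indicator_iff measurableSet_closedBall]
    exact integrableOn_const measure_closedBall_lt_top.ne enorm_ne_top
  · intro k
    refine Eventually.of_forall fun x => ?_
    rw [Real.norm_eq_abs, abs_abs]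
    by_cases hx : x ∈ closedBall (0 : ℂ) (R + ε)
    · rw [indicator_of_mem hx]
      have q1 : |mol (bmp ε hε k) G x| ≤ C := mol_bound _ hG hC0 fun y _ => hC y
      have q2 := hC x
      have q3 := abs_sub (mol (bmp ε hε k) G x) (G x)
      linarith
    · rw [indicator_of_notMem hx]
      rw [mem_closedBall, dist_zero_right, not_le] at hx
      have z1 : ∀ y, R < ‖y‖ → G y = 0 := by
        intro y hy
        by_contra hne
        have := hR (subset_tsupport _ hne)
        rw [mem_closedBall, dist_zero_right] at this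
        linarith
      have q1 : |mol (bmp ε hε k) G x| ≤ 0 := by
        refine mol_bound _ hG le_rfl fun y hy => ?_
        rw [z1, abs_zero]
        have b1 := bmp_le ε hε k
        rw [mem_ball, dist_comm, dist_eq_norm] at hy
        have := norm_sub_norm_le x y
        linarith
      have q2 : mol (bmp ε hε k) G x = 0 := abs_eq_zero.1 (le_antisymm q1 (abs_nonneg _))
      rw [q2, z1 x (by linarith)]
      simp
  · filter_upwards [hlim] with x hx
    have := (hx.sub_const (G x)).abs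
    rwa [sub_self, abs_zero] at this

/-- set integrals of translates -/
theorem int_diff {f g : ℂ → ℝ} (hf : Integrable f) (hg : Integrable g) (A : Set ℂ) (v : ℂ) :
    |(∫ x in A, f (x - v)) - ∫ x in A, g (x - v)| ≤ ∫ x, |f x - g x| := by
  rw [← integral_sub (hf.comp_sub_right v).integrableOn (hg.comp_sub_right v).integrableOn]
  refine (abs_integral_le_integral_abs).trans ?_
  have h1 : Integrable (fun x => |f (x - v) - g (x - v)|) :=
    ((hf.comp_sub_right v).sub (hg.comp_sub_right v)).abs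
  refine (setIntegral_le_integral h1 (Eventually.of_forall fun x => abs_nonneg _)).trans ?_
  rw [integral_sub_right_eq_self (fun x => |f x - g x|) v]

/-- the inequality for bounded measurable functions -/
theorem stepB {w : ℂ → ℝ} {A : Set ℂ} {P : ℝ} (hP : PW w A P) (hw0 : ∀ x, 0 ≤ w x)
    {U : ℂ → ℝ} (hU : Continuous U)
    (hUc : HasCompactSupport U) {ε : ℝ} (hε : 0 < ε) {K : Set ℂ}
    (hK : IsClosed K) (hKw : K ⊆ {x | 0 < w x}) (hUw : ∀ x z, dist z x ≤ ε → U z ≤ w x)
    (hUK : ∀ x z, dist z x ≤ ε → U z ≠ 0 → x ∈ K) {h : ℝ} (hh : 0 < h) (hhε : h ≤ ε / 2)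
    {G1 G2 : ℂ → ℝ} (m1 : Measurable G1) (m2 : Measurable G2) (b1 : ∀ x, |G1 x| ≤ U x)
    (b2 : ∀ x, |G2 x| ≤ U x) :
    ((∫ x in A, G1 x) - ∫ x in A, G1 (x - (h : ℂ))) +
      ((∫ x in A, G2 x) - ∫ x in A, G2 (x - (h : ℂ) * Complex.I)) ≤ √2 * h * P := by
  obtain ⟨C, hC⟩ := hUc.exists_bound_of_continuous hU
  have hbd : ∀ {G : ℂ → ℝ}, (∀ x, |G x| ≤ U x) → ∀ x, |G x| ≤ C := fun b x =>
    (b x).trans ((le_abs_self _).trans (hC x))
  have hcs : ∀ {G : ℂ → ℝ}, (∀ x, |G x| ≤ U x) → HasCompactSupport G := by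
    intro G b
    refine hUc.mono fun x hx => ?_
    rw [Function.mem_support] at hx ⊢
    intro h0
    apply hx
    have := b x
    rw [h0] at this
    exact abs_eq_zero.1 (le_antisymm this (abs_nonneg _))
  have hint : ∀ {G : ℂ → ℝ}, Measurable G → (∀ x, |G x| ≤ U x) → Integrable G := by
    intro G m b
    exact (hU.integrable_of_hasCompactSupport hUc).mono' m.aestronglyMeasurable
      (Eventually.of_forall fun x => b x)
  -- bounds of mollifications
  have key : ∀ {G : ℂ → ℝ}, Measurable G → (∀ x, |G x| ≤ U x) → ∀ (k : ℕ) (v : ℂ), ‖v‖ = h →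
      (∀ x, ∀ t ∈ Icc (0 : ℝ) 1, |mol (bmp ε hε k) G (x - t • v)| ≤ w x) ∧
      (∀ x, ∀ t ∈ Icc (0 : ℝ) 1, mol (bmp ε hε k) G (x - t • v) ≠ 0 → x ∈ K) := by
    intro G m b k v hv
    have hd : ∀ x, ∀ t ∈ Icc (0 : ℝ) 1, ∀ y ∈ ball (x - t • v) (bmp ε hε k).rOut,
        dist y x ≤ ε := by
      intro x t ht y hy
      rw [mem_ball] at hy
      have q1 := bmp_le ε hε k
      have q2 : dist (x - t • v) x ≤ h := by
        rw [dist_eq_norm, sub_sub_cancel_left, norm_neg, norm_smul, hv, Real.norm_of_nonneg ht.1]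
        nlinarith [ht.2]
      have := dist_triangle y (x - t • v) x
      linarith
    refine ⟨fun x t ht => ?_, fun x t ht hne => ?_⟩
    · exact mol_bound _ m (hw0 x) fun y hy => (b y).trans (hUw x y (hd x t ht y hy))
    · by_contra hxK
      apply hne
      have : |mol (bmp ε hε k) G (x - t • v)| ≤ 0 := by
        refine mol_bound _ m le_rfl fun y hy => ?_
        have q1 : U y = 0 := by
          by_contra hne2
          exact hxK (hUK x y (hd x t ht y hy) hne2)
        rw [← q1]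
        exact b y
      exact abs_eq_zero.1 (le_antisymm this (abs_nonneg _))
  have n1 : ‖(h : ℂ)‖ = h := by
    rw [Complex.norm_real, Real.norm_of_nonneg hh.le]
  have n2 : ‖(h : ℂ) * Complex.I‖ = h := by
    rw [norm_mul, Complex.norm_I, mul_one, n1]
  have hi1 := hint m1 b1
  have hi2 := hint m2 b2
  have hk : ∀ k : ℕ, ((∫ x in A, G1 x) - ∫ x in A, G1 (x - (h : ℂ))) +
      ((∫ x in A, G2 x) - ∫ x in A, G2 (x - (h : ℂ) * Complex.I)) ≤ √2 * h * P +
      (2 * (∫ x, |mol (bmp ε hε k) G1 x - G1 x|) +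
        2 * (∫ x, |mol (bmp ε hε k) G2 x - G2 x|)) := by
    intro k
    have d1 := mol_cd (bmp ε hε k) hi1.locallyIntegrable
    have d2 := mol_cd (bmp ε hε k) hi2.locallyIntegrable
    have c1 := mol_cs (bmp ε hε k) (hcs b1)
    have c2 := mol_cs (bmp ε hε k) (hcs b2)
    have q := stepA hP d1 d2 c1 c2 hh hK hKw hw0 (key m1 b1 k _ n1).1 (key m2 b2 k _ n2).1
      (key m1 b1 k _ n1).2 (key m2 b2 k _ n2).2
    have j1 : Integrable (mol (bmp ε hε k) G1) :=
      d1.continuous.integrable_of_hasCompactSupport c1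
    have j2 : Integrable (mol (bmp ε hε k) G2) :=
      d2.continuous.integrable_of_hasCompactSupport c2
    have r1 := int_diff j1 hi1 A 0
    have r2 := int_diff j1 hi1 A (h : ℂ)
    have r3 := int_diff j2 hi2 A 0
    have r4 := int_diff j2 hi2 A ((h : ℂ) * Complex.I)
    simp only [sub_zero] at r1 r3
    rw [abs_le] at r1 r2 r3 r4
    linarith [r1.1, r2.2, r3.1, r4.2]
  have hlim : Tendsto (fun k => √2 * h * P +
      (2 * (∫ x, |mol (bmp ε hε k) G1 x - G1 x|) +
        2 * (∫ x, |mol (bmp ε hε k) G2 x - G2 x|))) atTop (𝓝 (√2 * h * P + (2 * 0 + 2 * 0))) :=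
    tendsto_const_nhds.add (((mol_tendsto hε m1 (hbd b1) (hcs b1)).const_mul 2).add
      ((mol_tendsto hε m2 (hbd b2) (hcs b2)).const_mul 2))
  have := ge_of_tendsto' hlim hk
  simpa using this

end Pool.Agent.TH914.HU.C2
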