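import Pool.Agent.TH703.HU.Stm

/-!
# Polar coordinates and the flux through a circle (helper914 for helper703)
-/

set_option autoImplicit false

open MeasureTheory Set Metric Filter Topology
open scoped ENNReal Real

noncomputable section

namespace Pool.Agent.TH914.HU

open Pool.Agent.TH304.MI Pool.Agent.TH703.HU

/-- the direction of the angle `θ` -/
def ee (θ : ℝ) : ℂ := ⟨Real.cos θ, Real.sin θ⟩

/-- the point with polar coordinates `ρ`, `θ` around `q` -/
def pt (q : ℂ) (ρ θ : ℝ) : ℂ := q + (ρ : ℂ) * ee θ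

theorem ee_eq (θ : ℝ) : ee θ = (Real.cos θ : ℂ) + (Real.sin θ : ℂ) * Complex.I := by
  unfold ee
  generalize Real.cos θ = c
  generalize Real.sin θ = s
  apply Complex.ext <;> simp

theorem symm_eq (p : ℝ × ℝ) : Complex.polarCoord.symm p = (p.1 : ℂ) * ee p.2 := by
  rw [Complex.polarCoord_symm_apply, ee_eq]

theorem ee_cont : Continuous ee := by
  have : ee = fun θ : ℝ => (Real.cos θ : ℂ) + (Real.sin θ : ℂ) * Complex.I := funext ee_eq
  rw [this]
  fun_prop

theorem ee_norm (θ : ℝ) : ‖ee θ‖ = 1 := by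
  have : ee θ = Complex.exp (θ * Complex.I) := by
    rw [ee_eq, Complex.exp_mul_I]
    push_cast
    rfl
  rw [this, Complex.norm_exp_ofReal_mul_I]

theorem pt_cont (q : ℂ) : Continuous fun p : ℝ × ℝ => pt q p.1 p.2 := by
  unfold pt
  have := ee_cont
  fun_prop

/-- polar coordinates on a disc -/
theorem int_ball {f : ℂ → ℝ} (hf : Continuous f) (q : ℂ) {r : ℝ} (hr : 0 ≤ r) :
    ∫ x in ball q r, f x = ∫ ρ in (0 : ℝ)..r, ∫ θ in (-π)..π, ρ * f (pt q ρ θ) := by
  have e1 : ∫ x in ball q r, f x = ∫ z, (ball q r).indicator f (q + z) := by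
    rw [← integral_indicator measurableSet_ball]
    exact (integral_add_left_eq_self (μ := volume) ((ball q r).indicator f) q).symm
  rw [e1, ← Complex.integral_comp_polarCoord_symm, polarCoord_target]
  have e2 : ∫ p in Ioi (0 : ℝ) ×ˢ Ioo (-π) π,
      p.1 • (ball q r).indicator f (q + Complex.polarCoord.symm p) =
      ∫ p in Ioi (0 : ℝ) ×ˢ Ioo (-π) π,
        (Ioo (0 : ℝ) r ×ˢ (univ : Set ℝ)).indicator (fun p => p.1 * f (pt q p.1 p.2)) p := by
    refine setIntegral_congr_fun (measurableSet_Ioi.prod measurableSet_Ioo) fun p hp => ?_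
    have hp1 : 0 < p.1 := hp.1
    show p.1 • (ball q r).indicator f (q + Complex.polarCoord.symm p) =
      (Ioo (0 : ℝ) r ×ˢ (univ : Set ℝ)).indicator (fun p => p.1 * f (pt q p.1 p.2)) p
    rw [symm_eq, smul_eq_mul]
    by_cases h : p.1 < r
    · rw [indicator_of_mem, indicator_of_mem]
      · rfl
      · exact ⟨⟨hp1, h⟩, mem_univ _⟩
      · rw [mem_ball, dist_eq_norm, add_sub_cancel_left, norm_mul, ee_norm, mul_one,
          Complex.norm_real, Real.norm_of_nonneg hp1.le]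
        exact h
    · rw [indicator_of_notMem, indicator_of_notMem, mul_zero]
      · exact fun h2 => h h2.1.2
      · rw [mem_ball, dist_eq_norm, add_sub_cancel_left, norm_mul, ee_norm, mul_one,
          Complex.norm_real, Real.norm_of_nonneg hp1.le]
        exact h
  rw [e2, setIntegral_indicator (measurableSet_Ioo.prod MeasurableSet.univ)]
  have e3 : Ioi (0 : ℝ) ×ˢ Ioo (-π) π ∩ Ioo (0 : ℝ) r ×ˢ (univ : Set ℝ) =
      Ioo (0 : ℝ) r ×ˢ Ioo (-π) π := by
    ext p
    simp only [mem_inter_iff, mem_prod, mem_Ioi, mem_Ioo, mem_univ, and_true]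
    tauto
  have hc : Continuous fun p : ℝ × ℝ => p.1 * f (pt q p.1 p.2) :=
    continuous_fst.mul (hf.comp (pt_cont q))
  have hi : IntegrableOn (fun p : ℝ × ℝ => p.1 * f (pt q p.1 p.2))
      (Ioo (0 : ℝ) r ×ˢ Ioo (-π) π) (volume.prod volume) := by
    rw [← Measure.volume_eq_prod]
    exact (hc.continuousOn.integrableOn_compact (isCompact_Icc.prod isCompact_Icc)).mono_set
      (prod_mono Ioo_subset_Icc_self Ioo_subset_Icc_self)
  rw [e3, Measure.volume_eq_prod, setIntegral_prod _ hi, intervalIntegral.integral_of_le hr,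
    integral_Ioc_eq_integral_Ioo]
  refine setIntegral_congr_fun measurableSet_Ioo fun ρ _ => ?_
  simp only
  rw [intervalIntegral.integral_of_le (by linarith [Real.pi_pos]), integral_Ioc_eq_integral_Ioo]

/-- interchange of the order -/
theorem swap2 {g : ℝ → ℝ → ℝ} (hg : Continuous fun p : ℝ × ℝ => g p.1 p.2) {a b c d : ℝ}
    (hab : a ≤ b) (hcd : c ≤ d) :
    ∫ x in a..b, ∫ y in c..d, g x y = ∫ y in c..d, ∫ x in a..b, g x y := by
  simp only [intervalIntegral.integral_of_le hab, intervalIntegral.integral_of_le hcd]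
  refine integral_integral_swap ?_
  rw [Measure.prod_restrict]
  exact (hg.continuousOn.integrableOn_compact (isCompact_Icc.prod isCompact_Icc)).mono_set
    (prod_mono Ioc_subset_Icc_self Ioc_subset_Icc_self)

theorem pt_hasDeriv_r (q : ℂ) (ρ θ : ℝ) : HasDerivAt (fun ρ => pt q ρ θ) (ee θ) ρ := by
  unfold pt
  have h : HasDerivAt (fun ρ : ℝ => (ρ : ℂ)) 1 ρ := (hasDerivAt_id ρ).ofReal_comp
  simpa using (h.mul_const (ee θ)).const_add q

theorem ee_hasDeriv (θ : ℝ) : HasDerivAt ee ⟨-Real.sin θ, Real.cos θ⟩ θ := by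
  have e : ee = fun θ : ℝ => (Real.cos θ : ℂ) + (Real.sin θ : ℂ) * Complex.I := funext ee_eq
  rw [e]
  have h1 := (Real.hasDerivAt_cos θ).ofReal_comp
  have h2 := ((Real.hasDerivAt_sin θ).ofReal_comp).mul_const Complex.I
  refine (h1.add h2).congr_deriv ?_
  generalize Real.cos θ = c
  generalize Real.sin θ = s
  apply Complex.ext <;> simp

theorem pt_hasDeriv_t (q : ℂ) (ρ θ : ℝ) :
    HasDerivAt (fun θ => pt q ρ θ) (ρ * ⟨-Real.sin θ, Real.cos θ⟩) θ := by
  unfold pt
  exact ((ee_hasDeriv θ).const_mul (ρ : ℂ)).const_add q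

/-- flux through the circle -/
theorem flux {Y : ℂ → ℂ} (hY : ContDiff ℝ 1 Y) (q : ℂ) {r : ℝ} (hr : 0 ≤ r) :
    ∫ x in ball q r, dv2 Y x = ∫ θ in (-π)..π,
      r * ((Y (pt q r θ)).re * Real.cos θ + (Y (pt q r θ)).im * Real.sin θ) := by
  have hYd := hY.differentiable (by norm_num)
  have hD : Continuous (fderiv ℝ Y) := hY.continuous_fderiv (by norm_num)
  have hdvc : Continuous (dv2 Y) := by
    unfold dv2
    exact (Complex.continuous_re.comp (hD.clm_apply continuous_const)).add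
      (Complex.continuous_im.comp (hD.clm_apply continuous_const))
  rw [int_ball hdvc q hr]
  -- the two functions
  obtain ⟨R, hR⟩ : ∃ R : ℝ → ℝ → ℝ, R = fun ρ θ =>
    ρ * ((Y (pt q ρ θ)).re * Real.cos θ + (Y (pt q ρ θ)).im * Real.sin θ) := ⟨_, rfl⟩
  obtain ⟨T, hT⟩ : ∃ T : ℝ → ℝ → ℝ, T = fun ρ θ =>
    -(Y (pt q ρ θ)).re * Real.sin θ + (Y (pt q ρ θ)).im * Real.cos θ := ⟨_, rfl⟩
  obtain ⟨R', hR'⟩ : ∃ R' : ℝ → ℝ → ℝ, R' = fun ρ θ =>
    ((Y (pt q ρ θ)).re * Real.cos θ + (Y (pt q ρ θ)).im * Real.sin θ) +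
      ρ * ((fderiv ℝ Y (pt q ρ θ) (ee θ)).re * Real.cos θ +
        (fderiv ℝ Y (pt q ρ θ) (ee θ)).im * Real.sin θ) := ⟨_, rfl⟩
  obtain ⟨T', hT'⟩ : ∃ T' : ℝ → ℝ → ℝ, T' = fun ρ θ =>
    (-(fderiv ℝ Y (pt q ρ θ) (ρ * ⟨-Real.sin θ, Real.cos θ⟩)).re * Real.sin θ +
      -(Y (pt q ρ θ)).re * Real.cos θ) +
    ((fderiv ℝ Y (pt q ρ θ) (ρ * ⟨-Real.sin θ, Real.cos θ⟩)).im * Real.cos θ +
      (Y (pt q ρ θ)).im * -Real.sin θ) := ⟨_, rfl⟩
  have hRd : ∀ ρ θ, HasDerivAt (fun ρ => R ρ θ) (R' ρ θ) ρ := by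
    intro ρ θ
    have h1 := (hYd (pt q ρ θ)).hasFDerivAt.comp_hasDerivAt ρ (pt_hasDeriv_r q ρ θ)
    have h2 := Complex.reCLM.hasFDerivAt.comp_hasDerivAt ρ h1
    have h3 := Complex.imCLM.hasFDerivAt.comp_hasDerivAt ρ h1
    have h4 := (hasDerivAt_id ρ).mul ((h2.mul_const (Real.cos θ)).add (h3.mul_const (Real.sin θ)))
    rw [hR, hR']
    refine h4.congr_deriv ?_
    simp only [Pi.add_apply, Function.comp_apply, Complex.reCLM_apply, Complex.imCLM_apply, id]
    ring
  have hTd : ∀ ρ θ, HasDerivAt (fun θ => T ρ θ) (T' ρ θ) θ := by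
    intro ρ θ
    have h1 := (hYd (pt q ρ θ)).hasFDerivAt.comp_hasDerivAt θ (pt_hasDeriv_t q ρ θ)
    have h2 := Complex.reCLM.hasFDerivAt.comp_hasDerivAt θ h1
    have h3 := Complex.imCLM.hasFDerivAt.comp_hasDerivAt θ h1
    have h4 := (h2.neg.mul (Real.hasDerivAt_sin θ)).add (h3.mul (Real.hasDerivAt_cos θ))
    rw [hT, hT']
    refine h4.congr_deriv ?_
    simp only [Pi.neg_apply, Function.comp_apply, Complex.reCLM_apply, Complex.imCLM_apply]
  have hsum : ∀ ρ θ, ρ * dv2 Y (pt q ρ θ) = R' ρ θ + T' ρ θ := by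
    intro ρ θ
    rw [hR', hT']
    unfold dv2
    obtain ⟨L, hL⟩ : ∃ L : ℂ →L[ℝ] ℂ, L = fderiv ℝ Y (pt q ρ θ) := ⟨_, rfl⟩
    simp only [← hL]
    have l1 : L (ee θ) = Real.cos θ • L 1 + Real.sin θ • L Complex.I := by
      rw [← map_smul, ← map_smul, ← map_add]
      congr 1
      rw [ee_eq]
      generalize Real.cos θ = c
      generalize Real.sin θ = s
      simp
    have l2 : L (ρ * ⟨-Real.sin θ, Real.cos θ⟩) =
        (-(ρ * Real.sin θ)) • L 1 + (ρ * Real.cos θ) • L Complex.I := by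
      rw [← map_smul, ← map_smul, ← map_add]
      congr 1
      generalize Real.cos θ = c
      generalize Real.sin θ = s
      apply Complex.ext <;> simp
    rw [l1, l2]
    simp only [Complex.add_re, Complex.add_im, Complex.real_smul, Complex.mul_re, Complex.mul_im,
      Complex.ofReal_re, Complex.ofReal_im, zero_mul, sub_zero, add_zero]
    have h := Real.sin_sq_add_cos_sq θ
    linear_combination (-(ρ * ((L 1).re + (L Complex.I).im))) * h
  have hR'c : Continuous fun p : ℝ × ℝ => R' p.1 p.2 := by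
    rw [hR']
    have h1 : Continuous fun p : ℝ × ℝ => Y (pt q p.1 p.2) := hY.continuous.comp (pt_cont q)
    have h2 : Continuous fun p : ℝ × ℝ => fderiv ℝ Y (pt q p.1 p.2) (ee p.2) :=
      (hD.comp (pt_cont q)).clm_apply (ee_cont.comp continuous_snd)
    have c : Continuous fun p : ℝ × ℝ => Real.cos p.2 := Real.continuous_cos.comp continuous_snd
    have s : Continuous fun p : ℝ × ℝ => Real.sin p.2 := Real.continuous_sin.comp continuous_snd
    exact (((Complex.continuous_re.comp h1).mul c).add ((Complex.continuous_im.comp h1).mul s)).add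
      (continuous_fst.mul (((Complex.continuous_re.comp h2).mul c).add
        ((Complex.continuous_im.comp h2).mul s)))
  have hT'c : Continuous fun p : ℝ × ℝ => T' p.1 p.2 := by
    have : (fun p : ℝ × ℝ => T' p.1 p.2) = fun p => p.1 * dv2 Y (pt q p.1 p.2) - R' p.1 p.2 := by
      funext p
      rw [hsum]
      ring
    rw [this]
    exact (continuous_fst.mul (hdvc.comp (pt_cont q))).sub hR'c
  have e1 : ∫ ρ in (0 : ℝ)..r, ∫ θ in (-π)..π, ρ * dv2 Y (pt q ρ θ) =
      ∫ ρ in (0 : ℝ)..r, ∫ θ in (-π)..π, R' ρ θ := by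
    refine intervalIntegral.integral_congr fun ρ _ => ?_
    simp only [hsum]
    have c1 : Continuous fun θ => R' ρ θ := hR'c.comp (by fun_prop : Continuous fun θ : ℝ => (ρ, θ))
    have c2 : Continuous fun θ => T' ρ θ := hT'c.comp (by fun_prop : Continuous fun θ : ℝ => (ρ, θ))
    rw [intervalIntegral.integral_add (c1.intervalIntegrable _ _) (c2.intervalIntegrable _ _)]
    have h2 : ∫ θ in (-π)..π, T' ρ θ = T ρ π - T ρ (-π) :=
      intervalIntegral.integral_eq_sub_of_hasDerivAt (fun θ _ => hTd ρ θ)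
        (c2.intervalIntegrable _ _)
    have h3 : pt q ρ π = pt q ρ (-π) := by
      unfold pt ee
      simp
    rw [h2, hT]
    simp only [h3, Real.sin_pi, Real.cos_pi, Real.sin_neg, Real.cos_neg, neg_zero]
    ring
  rw [e1, swap2 hR'c hr (by linarith [Real.pi_pos])]
  refine intervalIntegral.integral_congr fun θ _ => ?_
  have c1 : Continuous fun ρ => R' ρ θ := hR'c.comp (by fun_prop : Continuous fun ρ : ℝ => (ρ, θ))
  have e2 : ∫ ρ in (0 : ℝ)..r, R' ρ θ = R r θ - R 0 θ :=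
    intervalIntegral.integral_eq_sub_of_hasDerivAt (fun ρ _ => hRd ρ θ)
      (c1.intervalIntegrable _ _)
  show ∫ ρ in (0 : ℝ)..r, R' ρ θ = _
  rw [e2, hR]
  simp

end Pool.Agent.TH914.HU
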